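import Mathlib

/-!
# Singer/SQ: matrices over a division ring with involution

The rank of a matrix over a division ring with involution is the rank of its conjugate transpose; hence a complex of such
matrices is exact if and only if the adjoint complex is exact.
-/

set_option autoImplicit false
set_option linter.unusedSectionVars false
set_option linter.unusedVariables false

open scoped Matrix

namespace Pool.Agent.Helper18.SQ

variable {D : Type*} [DivisionRing D] {κ ι μ : Type*} [Fintype κ] [Fintype ι] [Fintype μ]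

instance finite_op : Module.Finite Dᵐᵒᵖ D :=
  Module.Finite.of_surjective (LinearMap.toSpanSingleton Dᵐᵒᵖ D (1 : D)) fun w => ⟨MulOpposite.op w, one_mul w⟩

theorem finrank_op : Module.finrank Dᵐᵒᵖ D = 1 :=
  finrank_eq_one 1 one_ne_zero fun w => ⟨MulOpposite.op w, one_mul w⟩

/-- the action of a matrix on columns, which is linear for the right multiplication -/
def mv (A : Matrix κ ι D) : (ι → D) →ₗ[Dᵐᵒᵖ] (κ → D) where
  toFun y := A *ᵥ y
  map_add' y z := A.mulVec_add y z
  map_smul' b y := by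
    funext k
    show ∑ i, A k i * (y i * b.unop) = (∑ i, A k i * y i) * b.unop
    rw [Finset.sum_mul]
    refine Finset.sum_congr rfl fun i _ => ?_
    rw [mul_assoc]

theorem mv_apply (A : Matrix κ ι D) (y : ι → D) : mv A y = A *ᵥ y := rfl

theorem mv_mul (A : Matrix κ ι D) (B : Matrix ι μ D) : mv (A * B) = (mv A).comp (mv B) :=
  LinearMap.ext fun y => by
    show (A * B) *ᵥ y = A *ᵥ (B *ᵥ y)
    rw [Matrix.mulVec_mulVec]

/-- factorisation through the rank -/
theorem exists_factor (A : Matrix κ ι D) :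
    ∃ (B : Matrix κ (Fin (Module.finrank Dᵐᵒᵖ (LinearMap.range (mv A)))) D)
      (C : Matrix (Fin (Module.finrank Dᵐᵒᵖ (LinearMap.range (mv A)))) ι D), A = B * C := by
  classical
  let b := Module.finBasis Dᵐᵒᵖ (LinearMap.range (mv A))
  let v : ι → LinearMap.range (mv A) := fun i => ⟨mv A (Pi.single i 1), ⟨_, rfl⟩⟩
  refine ⟨fun k j => (b j : κ → D) k, fun j i => (b.repr (v i) j).unop, ?_⟩
  ext k i
  have h1 := congrArg (fun w : LinearMap.range (mv A) => (w : κ → D) k) (b.sum_repr (v i))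
  have h2 : (v i : κ → D) k = A k i := by
    show (A *ᵥ Pi.single i 1) k = A k i
    rw [Matrix.mulVec_single_one]
    rfl
  have h3 : ((∑ j, b.repr (v i) j • b j : LinearMap.range (mv A)) : κ → D) k =
      ∑ j, (b j : κ → D) k * (b.repr (v i) j).unop := by
    rw [AddSubmonoidClass.coe_finsetSum, Finset.sum_apply]
    rfl
  rw [Matrix.mul_apply, ← h2]
  exact h1.symm.trans h3

theorem finrank_col : Module.finrank Dᵐᵒᵖ (μ → D) = Fintype.card μ := by
  rw [Module.finrank_pi_fintype, finrank_op]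
  simp

theorem rank_le_of_mul (B : Matrix κ μ D) (C : Matrix μ ι D) :
    Module.finrank Dᵐᵒᵖ (LinearMap.range (mv (B * C))) ≤ Fintype.card μ := by
  rw [mv_mul]
  have h1 : Module.finrank Dᵐᵒᵖ (LinearMap.range ((mv B).comp (mv C))) ≤
      Module.finrank Dᵐᵒᵖ (LinearMap.range (mv B)) :=
    Submodule.finrank_mono (LinearMap.range_comp_le_range _ _)
  have h2 : Module.finrank Dᵐᵒᵖ (LinearMap.range (mv B)) ≤ Module.finrank Dᵐᵒᵖ (μ → D) :=
    LinearMap.finrank_range_le _
  rw [finrank_col] at h2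
  omega

section star
variable [StarRing D]

theorem rank_conj_le (A : Matrix κ ι D) : Module.finrank Dᵐᵒᵖ (LinearMap.range (mv Aᴴ)) ≤
    Module.finrank Dᵐᵒᵖ (LinearMap.range (mv A)) := by
  obtain ⟨B, C, h⟩ := exists_factor A
  have h1 : Aᴴ = Cᴴ * Bᴴ := by
    conv_lhs => rw [h]
    rw [Matrix.conjTranspose_mul]
  rw [h1]
  refine (rank_le_of_mul Cᴴ Bᴴ).trans ?_
  rw [Fintype.card_fin]

/-- the rank of the conjugate transpose -/
theorem rank_conj (A : Matrix κ ι D) : Module.finrank Dᵐᵒᵖ (LinearMap.range (mv Aᴴ)) =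
    Module.finrank Dᵐᵒᵖ (LinearMap.range (mv A)) := by
  refine le_antisymm (rank_conj_le A) ?_
  have h := rank_conj_le Aᴴ
  rwa [Matrix.conjTranspose_conjTranspose] at h

theorem exact_iff_rank (A : Matrix κ ι D) (B : Matrix μ κ D) (h : B * A = 0) :
    (∀ y : κ → D, B *ᵥ y = 0 → ∃ z : ι → D, A *ᵥ z = y) ↔
      Module.finrank Dᵐᵒᵖ (LinearMap.range (mv A)) + Module.finrank Dᵐᵒᵖ (LinearMap.range (mv B)) = Fintype.card κ := by
  have h1 := LinearMap.finrank_range_add_finrank_ker (mv B)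
  rw [finrank_col] at h1
  have h2 : LinearMap.range (mv A) ≤ LinearMap.ker (mv B) := by
    rintro _ ⟨z, rfl⟩
    show mv B (mv A z) = 0
    rw [← LinearMap.comp_apply, ← mv_mul, h]
    show (0 : Matrix μ ι D) *ᵥ z = 0
    rw [Matrix.zero_mulVec]
  constructor
  · intro h3
    have h4 : LinearMap.range (mv A) = LinearMap.ker (mv B) := by
      refine le_antisymm h2 fun y hy => ?_
      obtain ⟨z, hz⟩ := h3 y hy
      exact ⟨z, hz⟩
    rw [h4]
    omega
  · intro h3 y hy
    have h4 : LinearMap.range (mv A) = LinearMap.ker (mv B) :=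
      Submodule.eq_of_le_of_finrank_eq h2 (by omega)
    have h5 : y ∈ LinearMap.range (mv A) := by
      rw [h4]
      exact hy
    obtain ⟨z, hz⟩ := h5
    exact ⟨z, hz⟩

/-- exactness of the adjoint complex -/
theorem exact_iff_adj (A : Matrix κ ι D) (B : Matrix μ κ D) (h : B * A = 0) :
    (∀ y : κ → D, B *ᵥ y = 0 → ∃ z : ι → D, A *ᵥ z = y) ↔
      ∀ x : κ → D, Aᴴ *ᵥ x = 0 → ∃ z : μ → D, Bᴴ *ᵥ z = x := by
  have h' : Aᴴ * Bᴴ = 0 := by
    rw [← Matrix.conjTranspose_mul, h, Matrix.conjTranspose_zero]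
  rw [exact_iff_rank A B h, exact_iff_rank Bᴴ Aᴴ h', rank_conj, rank_conj, add_comm]

/-- injectivity and surjectivity of the adjoint -/
theorem inj_iff_adj (A : Matrix κ ι D) :
    (∀ y : ι → D, A *ᵥ y = 0 → y = 0) ↔ ∀ x : ι → D, ∃ z : κ → D, Aᴴ *ᵥ z = x := by
  have h := exact_iff_adj (0 : Matrix ι Empty D) A (Matrix.mul_zero A)
  constructor
  · intro h1 x
    refine h.1 ?_ x ?_
    · intro y hy
      refine ⟨0, ?_⟩
      rw [h1 y hy, Matrix.mulVec_zero]
    · rw [Matrix.conjTranspose_zero, Matrix.zero_mulVec]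
  · intro h1 y hy
    obtain ⟨z, hz⟩ := h.2 (fun x _ => h1 x) y hy
    rw [← hz, Matrix.zero_mulVec]

end star

end Pool.Agent.Helper18.SQ
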