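import Pool.Agent.Helper18.SQ.Ind
import Pool.Agent.Helper18.SQ.RankDual
import Pool.Agent.Helper16.Cmp.Main

/-!
# Singer/SQ: vanishing of the `ℓ²`-homology from the vanishing of the cohomology with coefficients in a division ring
-/

set_option autoImplicit false
set_option linter.unusedSectionVars false
set_option linter.unusedVariables false

namespace Pool.Agent.Helper18.SQ

open Singer Singer.Ord Pool.Agent.Helper16.Cmp

/-- for a group `Γ` with an injective homomorphism `φ` into a normal subgroup `K` of finite index of a right-angled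
Coxeter group and a homomorphism `σ` of `K` into a division ring of characteristic two: if the cohomology of `Γ` in degree
`i` vanishes for the coefficients `D`, on which `x` acts by `σ (w⁻¹ * φ x * w)`, for all `w`, then the `ℓ²`-homology in
degree `i` vanishes -/
theorem van_of_conj {V : Type} [Fintype V] (G : SimpleGraph V) {Γ : Type} [Group Γ] (φ : Γ →* RACG G)
    (hi : Function.Injective φ) (K : Subgroup (RACG G)) [K.Normal] [K.FiniteIndex] (hφ : ∀ x, φ x ∈ K)
    {D : Type} [DivisionRing D] (h2 : ∀ x : D, x + x = 0) (σ : K →* D) (R : FinRes Γ) (i : ℕ)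
    (h : ∀ w : RACG G, CoV R (fun x => lm (σ ⟨w⁻¹ * φ x * w, conj_mem' K (hφ x)⟩)) i) : R.VanE i := by
  classical
  have hf : Finite (RACG G ⧸ K) := Subgroup.finite_quotient_of_finiteIndex
  have hfin : FiniteDimensional Dᵐᵒᵖ (RACG G ⧸ K → D) := inferInstance
  refine van_of_bound (D := Dᵐᵒᵖ) (M := RACG G ⧸ K → D) R (fun x => ind K σ (φ x)) ?_ i (coV_ind K σ φ hφ R i h)
  intro κ ι J _ _ _ _ c s W hW
  exact vdim_le_sol (res_two_of_injective φ hi) c s W hW φ (D := Dᵐᵒᵖ) (M := RACG G ⧸ K → D)
    (fun x => funext fun q => h2 (x q)) (ind K σ)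

end Pool.Agent.Helper18.SQ
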