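import Pool.Agent.Helper18.SQ.Betti
import Pool.Agent.Helper16.Cmp.DivMod

/-!
# Singer/SQ: cohomology with coefficients in a module over a division ring, and `ℓ²`-Betti numbers

`cobd τ A`: the coboundary operator of a matrix `A` over the group ring with coefficients in a module on which the group
acts by `τ`; `CoV R τ i`: the cohomology in degree `i` of the resolution `R` with these coefficients vanishes;
`van_of_bound`: if the dimension over `D` bounds the von Neumann dimension of the solutions of linear systems, then
`CoV R τ i` implies the vanishing of the `ℓ²`-homology in degree `i`.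
-/

set_option autoImplicit false
set_option linter.unusedSectionVars false
set_option linter.unusedVariables false

namespace Pool.Agent.Helper18.SQ

open Singer Singer.Ord Pool.Agent.Helper16.Cmp

section cob
variable {Γ : Type*} {κ ι : Type*} [Fintype ι] {D M : Type*} [Ring D] [AddCommGroup M] [Module D M]

/-- the coboundary operator of a matrix over the group ring -/
noncomputable def cobd (τ : Γ → (M →ₗ[D] M)) (A : Matrix κ ι (MonoidAlgebra ℤ Γ)) : (ι → M) →ₗ[D] (κ → M) where
  toFun y k := ∑ i, ∑ x ∈ (A k i).coeff.support, (A k i).coeff x • τ x (y i)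
  map_add' y z := by
    funext k
    simp only [Pi.add_apply, map_add, smul_add, Finset.sum_add_distrib]
  map_smul' a y := by
    funext k
    simp only [Pi.smul_apply, map_smul, RingHom.id_apply, Finset.smul_sum]
    refine Finset.sum_congr rfl fun i _ => Finset.sum_congr rfl fun x _ => ?_
    rw [smul_comm]

theorem cobd_apply (τ : Γ → (M →ₗ[D] M)) (A : Matrix κ ι (MonoidAlgebra ℤ Γ)) (y : ι → M) (k : κ) :
    cobd τ A y k = ∑ i, ∑ x ∈ (A k i).coeff.support, (A k i).coeff x • τ x (y i) := rfl

end cob

section cov
variable {Γ : Type*} [Group Γ] {D M : Type*} [Ring D] [AddCommGroup M] [Module D M]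

/-- the cohomology of the resolution in degree `i` with coefficients in `M` vanishes -/
def CoV (R : FinRes Γ) (τ : Γ → (M →ₗ[D] M)) : ℕ → Prop
  | 0 => ∀ y : R.ι 0 → M, cobd τ (R.d 0) y = 0 → y = 0
  | i + 1 => ∀ y : R.ι (i + 1) → M, cobd τ (R.d (i + 1)) y = 0 → ∃ z : R.ι i → M, cobd τ (R.d i) z = y

end cov

section bound
variable {Γ : Type} [Group Γ] {D : Type*} [DivisionRing D] {M : Type*} [AddCommGroup M] [Module D M]

theorem solD_eq {κ ι : Type} [Fintype κ] [Fintype ι] (τ : Γ → (M →ₗ[D] M)) (A : Matrix κ ι (MonoidAlgebra ℤ Γ)) :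
    SolD (cA A) (fun j => τ (sA A j)) = LinearMap.ker (cobd τ A) := by
  ext y
  rw [mem_SolD, LinearMap.mem_ker, funext_iff]
  refine forall_congr' fun k => ?_
  rw [cobd_apply]
  have h : ∑ i, ∑ j, cA A k i j • τ (sA A j) (y i) =
      ∑ i, ∑ x ∈ (A k i).coeff.support, (A k i).coeff x • τ x (y i) :=
    Finset.sum_congr rfl fun i _ => sum_cA A k i (fun x => τ x (y i))
  rw [h]
  rfl

variable [FiniteDimensional D M]

theorem van_of_bound [Nontrivial M] (R : FinRes Γ) (τ : Γ → (M →ₗ[D] M))
    (hU : ∀ {κ ι J : Type} [Fintype κ] [Fintype ι] [DecidableEq ι] [Fintype J] (c : κ → ι → J → ℤ) (s : J → Γ)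
      (W : Submodule ℂ (E Γ ι)), (W : Set (E Γ ι)) = SolL c s →
      vdim W * Module.finrank D M ≤ Module.finrank D (SolD c (fun j => τ (s j)))) (i : ℕ) (h : CoV R τ i) :
    R.VanE i := by
  classical
  rw [← R.betti_eq_zero_iff]
  refine le_antisymm ?_ (R.betti_nonneg i)
  have hM : (0 : ℝ) < Module.finrank D M := by exact_mod_cast Module.finrank_pos
  have key : ∀ m, vdim (cok (R.d m)) * Module.finrank D M ≤ Module.finrank D (LinearMap.ker (cobd τ (R.d m))) := by
    intro m
    have h1 := hU (cA (R.d m)) (sA (R.d m)) (cok (R.d m)) (cok_eq_solL (R.d m))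
    rwa [solD_eq] at h1
  cases i with
  | zero =>
    have h1 := key 0
    have h2 : LinearMap.ker (cobd τ (R.d 0)) = ⊥ := by
      rw [eq_bot_iff]
      intro y hy
      exact h y hy
    rw [h2, finrank_bot, Nat.cast_zero] at h1
    rw [betti_zero]
    by_contra h3
    rw [not_le] at h3
    exact absurd h1 (not_le.2 (mul_pos h3 hM))
  | succ i =>
    have h1 := key i
    have h2 := key (i + 1)
    have h3 : Module.finrank D (LinearMap.ker (cobd τ (R.d (i + 1)))) ≤
        Module.finrank D (LinearMap.range (cobd τ (R.d i))) := by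
      refine Submodule.finrank_mono ?_
      intro y hy
      exact h y hy
    have h4 := LinearMap.finrank_range_add_finrank_ker (cobd τ (R.d i))
    have h5 : Module.finrank D (R.ι i → M) = Fintype.card (R.ι i) * Module.finrank D M := by
      rw [Module.finrank_pi_fintype, Finset.sum_const, Finset.card_univ, smul_eq_mul]
    rw [h5] at h4
    have h3' : (Module.finrank D (LinearMap.ker (cobd τ (R.d (i + 1)))) : ℝ) ≤
        Module.finrank D (LinearMap.range (cobd τ (R.d i))) := by exact_mod_cast h3
    have h4' : (Module.finrank D (LinearMap.range (cobd τ (R.d i))) : ℝ) +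
        Module.finrank D (LinearMap.ker (cobd τ (R.d i))) = Fintype.card (R.ι i) * Module.finrank D M := by
      exact_mod_cast h4
    rw [betti_succ]
    by_contra h6
    rw [not_le] at h6
    have h7 := mul_pos h6 hM
    rw [sub_mul, add_mul] at h7
    linarith

end bound

end Pool.Agent.Helper18.SQ
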