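import Pool.Agent.Helper18.SQ.Cov

/-!
# Singer/SQ: induced modules over a division ring

`ind K σ`: the representation of a group `W` on the functions `W ⧸ K → D` which is induced from the homomorphism
`σ : K →* D` of a normal subgroup into the multiplicative monoid of a division ring; the functions are a vector space over
`Dᵐᵒᵖ`.  `coV_ind`: for a group `Γ` and a homomorphism `φ : Γ →* W` into `K`, the cohomology of `Γ` with coefficients in
the induced module vanishes if it vanishes for the coefficients `D`, on which `x` acts by `σ (w⁻¹ * φ x * w)`, for all `w`.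
-/

set_option autoImplicit false
set_option linter.unusedSectionVars false
set_option linter.unusedVariables false

namespace Pool.Agent.Helper18.SQ

open Singer Singer.Ord Pool.Agent.Helper16.Cmp

section lm
variable {D : Type*} [Ring D]

/-- the left multiplication, as a linear map of the right module `D` -/
def lm : D →* (D →ₗ[Dᵐᵒᵖ] D) where
  toFun a :=
    { toFun := fun x => a * x
      map_add' := fun x y => mul_add a x y
      map_smul' := fun b x => by
        show a * (x * b.unop) = a * x * b.unop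
        rw [mul_assoc] }
  map_one' := LinearMap.ext fun x => one_mul x
  map_mul' a b := LinearMap.ext fun x => mul_assoc a b x

@[simp] theorem lm_apply (a x : D) : lm a x = a * x := rfl

end lm

section ind
variable {W : Type*} [Group W] (K : Subgroup W) {D : Type*} [Ring D] (σ : K →* D)

theorem out_mem (w : W) (q : W ⧸ K) : (q.out)⁻¹ * w * (w⁻¹ • q).out ∈ K := by
  rw [mul_assoc, ← QuotientGroup.eq, QuotientGroup.out_eq']
  have h : ((w * (w⁻¹ • q).out : W) : W ⧸ K) = w • (((w⁻¹ • q).out : W) : W ⧸ K) := rfl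
  rw [h, QuotientGroup.out_eq', smul_inv_smul]

/-- the cocycle of the section `Quotient.out` -/
noncomputable def coc (w : W) (q : W ⧸ K) : K := ⟨(q.out)⁻¹ * w * (w⁻¹ • q).out, out_mem K w q⟩

theorem coc_one (q : W ⧸ K) : coc K 1 q = 1 := by
  apply Subtype.ext
  show (q.out)⁻¹ * 1 * ((1 : W)⁻¹ • q).out = 1
  rw [inv_one, one_smul, mul_one, inv_mul_cancel]

theorem coc_mul (w w' : W) (q : W ⧸ K) : coc K (w * w') q = coc K w q * coc K w' (w⁻¹ • q) := by
  apply Subtype.ext
  show (q.out)⁻¹ * (w * w') * ((w * w')⁻¹ • q).out =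
    (q.out)⁻¹ * w * (w⁻¹ • q).out * (((w⁻¹ • q).out)⁻¹ * w' * (w'⁻¹ • w⁻¹ • q).out)
  rw [mul_inv_rev, mul_smul]
  group

/-- the induced representation -/
noncomputable def ind : W →* ((W ⧸ K → D) →ₗ[Dᵐᵒᵖ] (W ⧸ K → D)) where
  toFun w :=
    { toFun := fun f q => σ (coc K w q) * f (w⁻¹ • q)
      map_add' := fun f f' => funext fun q => mul_add _ _ _
      map_smul' := fun b f => funext fun q => by
        show σ (coc K w q) * (f (w⁻¹ • q) * b.unop) = σ (coc K w q) * f (w⁻¹ • q) * b.unop
        rw [mul_assoc] }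
  map_one' := by
    refine LinearMap.ext fun f => funext fun q => ?_
    show σ (coc K 1 q) * f ((1 : W)⁻¹ • q) = f q
    rw [coc_one, map_one, one_mul, inv_one, one_smul]
  map_mul' w w' := by
    refine LinearMap.ext fun f => funext fun q => ?_
    show σ (coc K (w * w') q) * f ((w * w')⁻¹ • q) =
      σ (coc K w q) * (σ (coc K w' (w⁻¹ • q)) * f (w'⁻¹ • w⁻¹ • q))
    rw [coc_mul, map_mul, mul_inv_rev, mul_smul, mul_assoc]

theorem ind_apply (w : W) (f : W ⧸ K → D) (q : W ⧸ K) : ind K σ w f q = σ (coc K w q) * f (w⁻¹ • q) := rfl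

variable [hK : K.Normal]

theorem smul_eq_of_mem {w : W} (hw : w ∈ K) (q : W ⧸ K) : w • q = q := by
  induction q using QuotientGroup.induction_on with
  | H x =>
    show ((w * x : W) : W ⧸ K) = (x : W ⧸ K)
    rw [QuotientGroup.eq]
    have h := hK.conj_mem _ (K.inv_mem hw) x⁻¹
    rw [inv_inv] at h
    rw [mul_inv_rev]
    exact h

theorem conj_mem' {w x : W} (hx : x ∈ K) : w⁻¹ * x * w ∈ K := by
  have h := hK.conj_mem _ hx w⁻¹
  rwa [inv_inv] at h

theorem ind_apply_mem {w : W} (hw : w ∈ K) (f : W ⧸ K → D) (q : W ⧸ K) :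
    ind K σ w f q = σ ⟨(q.out)⁻¹ * w * q.out, conj_mem' K hw⟩ * f q := by
  rw [ind_apply]
  have h : w⁻¹ • q = q := smul_eq_of_mem K (K.inv_mem hw) q
  have h2 : coc K w q = ⟨(q.out)⁻¹ * w * q.out, conj_mem' K hw⟩ := by
    apply Subtype.ext
    show (q.out)⁻¹ * w * (w⁻¹ • q).out = (q.out)⁻¹ * w * q.out
    rw [h]
  rw [h2, h]

theorem coV_ind {Γ : Type*} [Group Γ] (φ : Γ →* W) (hφ : ∀ x, φ x ∈ K) (R : FinRes Γ) (i : ℕ)
    (h : ∀ w : W, CoV R (fun x => lm (σ ⟨w⁻¹ * φ x * w, conj_mem' K (hφ x)⟩)) i) :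
    CoV R (fun x => ind K σ (φ x)) i := by
  have key : ∀ {κ ι : Type} [Fintype ι] (A : Matrix κ ι (MonoidAlgebra ℤ Γ)) (y : ι → W ⧸ K → D) (k : κ) (q : W ⧸ K),
      cobd (fun x => ind K σ (φ x)) A y k q =
        cobd (fun x => lm (σ ⟨(q.out)⁻¹ * φ x * q.out, conj_mem' K (hφ x)⟩)) A (fun i => y i q) k := by
    intro κ ι _ A y k q
    rw [cobd_apply, cobd_apply, Finset.sum_apply]
    refine Finset.sum_congr rfl fun i _ => ?_
    rw [Finset.sum_apply]
    refine Finset.sum_congr rfl fun x _ => ?_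
    rw [Pi.smul_apply, ind_apply_mem K σ (hφ x), lm_apply]
  cases i with
  | zero =>
    intro y hy
    funext l q
    have h1 := h q.out (fun i => y i q) ?_
    · exact congrFun h1 l
    · funext k
      rw [← key]
      exact congrFun (congrFun hy k) q
  | succ i =>
    intro y hy
    have h1 : ∀ q : W ⧸ K, ∃ z : R.ι i → D,
        cobd (fun x => lm (σ ⟨(q.out)⁻¹ * φ x * q.out, conj_mem' K (hφ x)⟩)) (R.d i) z = fun i => y i q := by
      intro q
      refine h q.out (fun i => y i q) ?_
      funext k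
      rw [← key]
      exact congrFun (congrFun hy k) q
    choose z hz using h1
    refine ⟨fun l q => z q l, ?_⟩
    funext k q
    rw [key]
    exact congrFun (hz q) k

end ind

end Pool.Agent.Helper18.SQ
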