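import Pool.Agent.Singer.FinBetti
import Pool.Agent.Singer.Ord.Defs

/-!
# Singer/SQ: the Betti numbers of a resolution and the kernels of the coboundary maps
-/

set_option autoImplicit false
set_option linter.unusedSectionVars false
set_option linter.unusedVariables false

open scoped ComplexConjugate InnerProductSpace Matrix

namespace Pool.Agent.Helper18.SQ

open Singer Singer.Ord

section adj
variable {Γ : Type*} [Group Γ] {κ ι : Type*} [Fintype κ] [Fintype ι]

/-- the coboundary operator of a matrix on square-summable functions -/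
theorem adj_hat_apply (A : Matrix κ ι (MonoidAlgebra ℤ Γ)) (f : E Γ ι) (g : Γ) (k : κ) :
    ContinuousLinearMap.adjoint (hat A) f (g, k) =
      ∑ i, ∑ x ∈ (A k i).coeff.support, ((A k i).coeff x : ℂ) * f (g * x, i) := by
  have h1 : ContinuousLinearMap.adjoint (hat A) f (g, k) = ⟪(del g k : E Γ κ), ContinuousLinearMap.adjoint (hat A) f⟫_ℂ :=
    (inner_del_left g k _).symm
  rw [h1, ContinuousLinearMap.adjoint_inner_right, hat_del, sum_inner]
  refine Finset.sum_congr rfl fun i _ => ?_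
  rw [sum_inner]
  refine Finset.sum_congr rfl fun x _ => ?_
  rw [inner_smul_left, inner_del_left, map_intCast]

/-- the kernel of the coboundary operator -/
noncomputable def cok (A : Matrix κ ι (MonoidAlgebra ℤ Γ)) : Submodule ℂ (E Γ ι) :=
  LinearMap.ker ((ContinuousLinearMap.adjoint (hat A)) : E Γ ι →ₗ[ℂ] E Γ κ)

theorem vdim_range_hat (A : Matrix κ ι (MonoidAlgebra ℤ Γ)) :
    vdim (LinearMap.range (hat A : E Γ κ →ₗ[ℂ] E Γ ι)) = Fintype.card ι - vdim (cok A) := by
  have h8 := vdim_orthogonal (LinearMap.range (hat A : E Γ κ →ₗ[ℂ] E Γ ι))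
  have h7 : (LinearMap.range (hat A : E Γ κ →ₗ[ℂ] E Γ ι))ᗮ = cok A := ContinuousLinearMap.orthogonal_range (hat A)
  rw [h7] at h8
  linarith

theorem vdim_ker_hat (A : Matrix κ ι (MonoidAlgebra ℤ Γ)) :
    vdim (LinearMap.ker (hat A : E Γ κ →ₗ[ℂ] E Γ ι)) = Fintype.card κ - Fintype.card ι + vdim (cok A) := by
  have h1 := vdim_ker_add (mat_hat A).equi
  have h2 := vdim_range_hat A
  linarith

end adj

section sys
variable {Γ : Type} [Group Γ] {κ ι : Type} [Fintype κ] [Fintype ι]

open Classical in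
/-- the elements of the supports -/
noncomputable def supps (A : Matrix κ ι (MonoidAlgebra ℤ Γ)) : Finset Γ :=
  Finset.univ.biUnion fun k => Finset.univ.biUnion fun i => (A k i).coeff.support

theorem mem_supps (A : Matrix κ ι (MonoidAlgebra ℤ Γ)) {k : κ} {i : ι} {x : Γ} (h : x ∈ (A k i).coeff.support) :
    x ∈ supps A := by
  unfold supps
  simp only [Finset.mem_biUnion, Finset.mem_univ, true_and]
  exact ⟨k, i, h⟩

/-- the coefficients of the system of a matrix -/
noncomputable def cA (A : Matrix κ ι (MonoidAlgebra ℤ Γ)) (k : κ) (i : ι) (j : supps A) : ℤ := (A k i).coeff j.1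

/-- the group elements of the system of a matrix -/
noncomputable def sA (A : Matrix κ ι (MonoidAlgebra ℤ Γ)) (j : supps A) : Γ := j.1

theorem sum_cA {N : Type*} [AddCommGroup N] (A : Matrix κ ι (MonoidAlgebra ℤ Γ)) (k : κ) (i : ι) (F : Γ → N) :
    ∑ j, cA A k i j • F (sA A j) = ∑ x ∈ (A k i).coeff.support, (A k i).coeff x • F x := by
  classical
  show ∑ j : supps A, (A k i).coeff j.1 • F j.1 = _
  rw [Finset.sum_coe_sort (supps A) (fun x => (A k i).coeff x • F x)]
  refine (Finset.sum_subset (fun x hx => mem_supps A hx) fun x _ hx => ?_).symm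
  rw [Finsupp.notMem_support_iff.1 hx, zero_smul]

theorem cok_eq_solL (A : Matrix κ ι (MonoidAlgebra ℤ Γ)) :
    ((cok A : Submodule ℂ (E Γ ι)) : Set (E Γ ι)) = SolL (cA A) (sA A) := by
  have key : ∀ (f : E Γ ι) (g : Γ) (k : κ), ∑ i, ∑ j, (cA A k i j : ℂ) * f (g * sA A j, i) =
      ContinuousLinearMap.adjoint (hat A) f (g, k) := by
    intro f g k
    rw [adj_hat_apply]
    refine Finset.sum_congr rfl fun i _ => ?_
    have h := sum_cA A k i (fun x => f (g * x, i))
    simp only [zsmul_eq_mul] at h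
    exact h
  ext f
  constructor
  · intro hf g k
    have h : ContinuousLinearMap.adjoint (hat A) f = 0 := hf
    rw [key, h]
    rfl
  · intro hf
    show ContinuousLinearMap.adjoint (hat A) f = 0
    ext p
    obtain ⟨g, k⟩ := p
    rw [← key]
    exact hf g k

end sys

section betti
variable {Γ : Type} [Group Γ]

theorem vdim_Z_zero (R : FinRes Γ) : vdim (R.toRes.Z 0) = Fintype.card (R.ι 0) := by
  have h : R.toRes.Z 0 = ⊤ := by
    rw [eq_top_iff]
    intro f _
    exact (R.mem_Z_iff 0 f).2 trivial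
  rw [h]
  exact vdim_top

theorem Z_succ (R : FinRes Γ) (i : ℕ) : R.toRes.Z (i + 1) =
    (LinearMap.ker (hat (R.d i) : E Γ (R.ι (i + 1)) →ₗ[ℂ] E Γ (R.ι i)) : Submodule ℂ (E Γ (R.ι (i + 1)))) := by
  ext f
  constructor
  · intro hf
    exact hf.2
  · intro hf
    exact ⟨trivial, hf⟩

theorem betti_vdim (R : FinRes Γ) (i : ℕ) : R.betti i = vdim (R.toRes.Z i) - (Fintype.card (R.ι i) - vdim (cok (R.d i))) := by
  rw [R.betti_eq]
  unfold HC.h
  rw [PreRes.toHC_Z, PreRes.toHC_B, ← vdim_range_hat]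
  show vdim (R.toRes.Z i) - vdim (((⊤ : Submodule ℂ (E Γ (R.ι (i + 1)))).map
      (hat (R.d i) : E Γ (R.ι (i + 1)) →ₗ[ℂ] E Γ (R.ι i)) : Submodule ℂ (E Γ (R.ι i))).topologicalClosure) = _
  rw [vdim_closure, Submodule.map_top]

/-- the Betti number in degree `0` -/
theorem betti_zero (R : FinRes Γ) : R.betti 0 = vdim (cok (R.d 0)) := by
  rw [betti_vdim, vdim_Z_zero]
  ring

/-- the Betti number in degree `i + 1` -/
theorem betti_succ (R : FinRes Γ) (i : ℕ) :
    R.betti (i + 1) = vdim (cok (R.d (i + 1))) + vdim (cok (R.d i)) - Fintype.card (R.ι i) := by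
  have h1 := betti_vdim R (i + 1)
  have h2 : vdim (R.toRes.Z (i + 1)) =
      vdim (LinearMap.ker (hat (R.d i) : E Γ (R.ι (i + 1)) →ₗ[ℂ] E Γ (R.ι i)) : Submodule ℂ (E Γ (R.ι (i + 1)))) := by
    rw [Z_succ]
    rfl
  have h3 := vdim_ker_hat (R.d i)
  linarith

end betti

end Pool.Agent.Helper18.SQ
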